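import Pool.Agent.Lib.MP_0c623d_al.G.End

/-!
The final reduction for the quotient of the braid group by the `m`-th powers only.
-/

set_option autoImplicit false

namespace Pool.Agent.BP.G

open FreeGroup (of)

/-- braid relators and the `m`-th power of the first generator -/
def relsB (m : ℕ) : Set F3 :=
  {of 0 * of 1 * of 0 * (of 1 * of 0 * of 1)⁻¹, of 1 * of 2 * of 1 * (of 2 * of 1 * of 2)⁻¹,
    of 0 * of 2 * (of 2 * of 0)⁻¹, of 0 ^ m}

/-- the braid group on four strands modulo the `m`-th powers of the generators -/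
abbrev Bm (m : ℕ) : Type := PresentedGroup (relsB m)

/-- the standard generators -/
def genB (m : ℕ) (i : Fin 3) : Bm m := PresentedGroup.of i

theorem relB_one {m : ℕ} {r : F3} (h : r ∈ relsB m) : PresentedGroup.mk (relsB m) r = 1 :=
  PresentedGroup.one_of_mem h

theorem genB_braid (m : ℕ) : Braid (genB m 0) (genB m 1) (genB m 2) := by
  refine ⟨?_, ?_, ?_⟩
  · have := relB_one (m := m) (Or.inl rfl)
    rw [map_mul, map_inv, mul_inv_eq_one] at this
    exact this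
  · have := relB_one (m := m) (Or.inr (Or.inl rfl))
    rw [map_mul, map_inv, mul_inv_eq_one] at this
    exact this
  · have := relB_one (m := m) (Or.inr (Or.inr (Or.inl rfl)))
    rw [map_mul, map_inv, mul_inv_eq_one] at this
    exact this

theorem genB_pow (m : ℕ) : genB m 0 ^ m = 1 :=
  relB_one (m := m) (Or.inr (Or.inr (Or.inr rfl)))

theorem genB_pow_all (m : ℕ) (i : Fin 3) : genB m i ^ m = 1 := by
  fin_cases i
  · exact genB_pow m
  · exact (genB_braid m).pow_b (genB_pow m)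
  · exact (genB_braid m).pow_c (genB_pow m)

theorem genB_closure (m : ℕ) : Subgroup.closure (Set.range (genB m)) = ⊤ :=
  PresentedGroup.closure_range_of _

instance (m : ℕ) : Group.FG (Bm m) :=
  Group.fg_iff.2 ⟨_, genB_closure m, Set.finite_range _⟩

/-- the universal property -/
def liftB {m : ℕ} {H : Type} [Group H] {a b c : H} (h : Braid a b c) (hm : a ^ m = 1) :
    Bm m →* H :=
  PresentedGroup.toGroup (f := ![a, b, c]) (by
    rintro r (rfl | rfl | rfl | rfl)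
    · simp [h.ab]
    · simp [h.bc]
    · simp [h.ac]
    · simp [hm])

theorem liftB_gen {m : ℕ} {H : Type} [Group H] {a b c : H} (h : Braid a b c) (hm : a ^ m = 1)
    (i : Fin 3) : liftB h hm (genB m i) = ![a, b, c] i :=
  PresentedGroup.toGroup.of _

/-- the full twist -/
def zB (m : ℕ) : Bm m := (genB m 0 * genB m 1 * genB m 2) ^ 4

theorem mem_Pm_B {m : ℕ} (h6 : 6 ∣ m) {f : F2}
    (hf : emb (genB m 0) (genB m 1) (genB m 2) f ∈ Subgroup.zpowers (zB m)) : f ∈ Pm m := by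
  obtain ⟨k, hk⟩ := hf
  have := congrArg (liftB (gen_braid m) (gen_pow m)) hk
  simp only [zB, map_zpow, map_pow, map_mul, map_emb, liftB_gen, Matrix.cons_val_zero,
    Matrix.cons_val_one, Matrix.cons_val] at this
  rw [gen_z, one_zpow] at this
  exact mem_Pm h6 this.symm

/-- the embedding -/
def embB (m : ℕ) : F2 ⧸ Pm m →* Bm m :=
  QuotientGroup.lift _ (emb (genB m 0) (genB m 1) (genB m 2))
    (Subgroup.normalClosure_le_normal (N := (emb (genB m 0) (genB m 1) (genB m 2)).ker) (by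
      rintro _ ⟨β, i, rfl⟩
      exact (genB_braid m).prim_pow (genB_pow m) β i))

theorem embB_notMem {m : ℕ} (h6 : 6 ∣ m) {g : F2 ⧸ Pm m} (hg : g ≠ 1) :
    embB m g ∉ Subgroup.zpowers (zB m) := by
  obtain ⟨f, rfl⟩ := QuotientGroup.mk_surjective g
  exact fun h => hg ((QuotientGroup.eq_one_iff _).2 (mem_Pm_B h6 h))

/-- elements outside the centre are detected by finite index subgroups -/
def Sep (m : ℕ) : Prop :=
  ∀ g : Bm m, g ∉ Subgroup.zpowers (zB m) → ∃ H : Subgroup (Bm m), H.index ≠ 0 ∧ g ∉ H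

theorem sep_of_end {m : ℕ} {V : Type} [AddCommGroup V] [Module ℂ V] [FiniteDimensional ℂ V]
    (ρ : Bm m →* Module.End ℂ V) (h : ∀ g, ρ g = 1 → g ∈ Subgroup.zpowers (zB m)) : Sep m :=
  fun g hg => Pool.Agent.Lib.MP_0c623d_al.BP.malcev_end ρ fun e => hg (h g e)

theorem sep_of_equiv {m : ℕ} {V : Type} [AddCommGroup V] [Module ℂ V] [FiniteDimensional ℂ V]
    (ρ : Bm m →* (V ≃ₗ[ℂ] V)) (h : ∀ g, ρ g = 1 → g ∈ Subgroup.zpowers (zB m)) : Sep m :=
  sep_of_end (LinearEquiv.automorphismGroup.toLinearMapMonoidHom.comp ρ) fun g e =>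
    h g (LinearEquiv.toLinearMap_injective e)

theorem sep_of_matrix {m : ℕ} {n : Type} [Fintype n] [DecidableEq n]
    (ρ : Bm m →* Matrix n n ℂ) (h : ∀ g, ρ g = 1 → g ∈ Subgroup.zpowers (zB m)) : Sep m :=
  fun g hg => Pool.Agent.Lib.MP_0c623d_al.BP.malcev ρ fun e => hg (h g e)

theorem sep_of_proj {m : ℕ} {n : Type} [Fintype n] [DecidableEq n] (ρ : Bm m → Matrix n n ℂ)
    (hu : ∀ x, IsUnit (ρ x)) (hρ : ∀ x y, ∃ c : ℂ, ρ (x * y) = c • (ρ x * ρ y))
    (h : ∀ (g : Bm m) (c : ℂ), ρ g = c • (1 : Matrix n n ℂ) → g ∈ Subgroup.zpowers (zB m)) :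
    Sep m :=
  fun g hg => Pool.Agent.Lib.MP_0c623d_al.BP.malcev_proj ρ hu hρ fun c e => hg (h g c e)

theorem rf_of_sep {m : ℕ} (h6 : 6 ∣ m) (h : Sep m) : RF (F2 ⧸ Pm m) := by
  intro g hg
  obtain ⟨H, h1, h2⟩ := h _ (embB_notMem h6 hg)
  have : H.FiniteIndex := ⟨h1⟩
  refine ⟨H.comap (embB m), ?_, h2⟩
  rw [Subgroup.index_comap]
  exact Subgroup.FiniteIndex.index_ne_zero

/-- The final reduction. -/
theorem finalB (h : ∀ M : ℕ, ∃ m, M ≤ m ∧ 6 ∣ m ∧ Sep m) :
    ¬ (∀ n : ℕ, 2 ≤ n → ∃ M : ℕ, ∀ m : ℕ, M ≤ m →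
      ∃ g : FreeGroup (Fin n) ⧸ Subgroup.normalClosure
          {x : FreeGroup (Fin n) | ∃ b : FreeGroupBasis (Fin n) (FreeGroup (Fin n)),
            ∃ i : Fin n, x = (b i) ^ m},
        g ≠ 1 ∧
        ∀ H : Subgroup (FreeGroup (Fin n) ⧸ Subgroup.normalClosure
          {x : FreeGroup (Fin n) | ∃ b : FreeGroupBasis (Fin n) (FreeGroup (Fin n)),
            ∃ i : Fin n, x = (b i) ^ m}),
          H.index ≠ 0 → g ∈ H) := by
  intro hh
  obtain ⟨M, hM⟩ := hh 2 le_rfl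
  obtain ⟨m, h1, h6, hr⟩ := h M
  obtain ⟨g, hg, hH⟩ := hM m h1
  obtain ⟨H, a, b⟩ := rf_of_sep h6 hr g hg
  exact b (hH H a)

end Pool.Agent.BP.G
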