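import Pool.Agent.Lib.MP_0c623d_al.G.Niel

/-!
Words in the braid group on four strands, and the images of primitive elements.
-/

set_option autoImplicit false

namespace Pool.Agent.BP.G

open FreeGroup (of)

/-- the braid relations on four strands -/
structure Braid {H : Type} [Group H] (a b c : H) : Prop where
  ab : a * b * a = b * a * b
  bc : b * c * b = c * b * c
  ac : a * c = c * a

section
variable {H : Type} [Group H] {a b c : H}

theorem Braid.bcb (h : Braid a b c) : c⁻¹ * b⁻¹ * c = b * c⁻¹ * b⁻¹ := by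
  calc c⁻¹ * b⁻¹ * c = b * (b * c * b)⁻¹ * c := by group
    _ = b * (c * b * c)⁻¹ * c := by rw [h.bc]
    _ = _ := by group

theorem Braid.aba (h : Braid a b c) : a⁻¹ * b * a = b * a * b⁻¹ := by
  calc a⁻¹ * b * a = a⁻¹ * (b * a * b) * b⁻¹ := by group
    _ = a⁻¹ * (a * b * a) * b⁻¹ := by rw [h.ab]
    _ = _ := by group

theorem Braid.ac' (h : Braid a b c) : c⁻¹ * a = a * c⁻¹ := (Commute.inv_right h.ac).eq.symm

theorem Braid.aA (h : Braid a b c) : a * (a * c⁻¹) * a⁻¹ = a * c⁻¹ := by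
  rw [← h.ac']
  nth_rewrite 2 [h.ac']
  group

theorem Braid.aB (h : Braid a b c) :
    a * (b * (a * c⁻¹) * b⁻¹) * a⁻¹ = b * (a * c⁻¹) * b⁻¹ * (a * c⁻¹)⁻¹ := by
  calc a * (b * (a * c⁻¹) * b⁻¹) * a⁻¹ = a * b * a * c⁻¹ * b⁻¹ * a⁻¹ := by group
    _ = b * a * (b * c⁻¹ * b⁻¹) * a⁻¹ := by rw [h.ab]; group
    _ = _ := by rw [← h.bcb]; group

theorem Braid.bB (h : Braid a b c) :
    b * (b * (a * c⁻¹) * b⁻¹) * b⁻¹ =
      b * (a * c⁻¹) * b⁻¹ * (a * c⁻¹)⁻¹ * (b * (a * c⁻¹) * b⁻¹) := by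
  symm
  calc _ = b * a * (c⁻¹ * b⁻¹ * c) * (a⁻¹ * b * a) * c⁻¹ * b⁻¹ := by group
    _ = b * a * b * (c⁻¹ * a) * b⁻¹ * c⁻¹ * b⁻¹ := by rw [h.bcb, h.aba]; group
    _ = b * (a * b * a) * (c * b * c)⁻¹ * b⁻¹ := by rw [h.ac']; group
    _ = _ := by rw [h.ab, ← h.bc]; group

theorem Braid.pow_b (h : Braid a b c) {m : ℕ} (hm : a ^ m = 1) : b ^ m = 1 := by
  have : b = (a * b) * a * (a * b)⁻¹ := by rw [h.ab]; group
  rw [this, conj_pow, hm]
  group

theorem Braid.pow_c (h : Braid a b c) {m : ℕ} (hm : a ^ m = 1) : c ^ m = 1 := by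
  have : c = (b * c) * b * (b * c)⁻¹ := by rw [h.bc]; group
  rw [this, conj_pow, h.pow_b hm]
  group

theorem Braid.pow_A (h : Braid a b c) {m : ℕ} (hm : a ^ m = 1) : (a * c⁻¹) ^ m = 1 := by
  rw [(Commute.inv_right h.ac).mul_pow, inv_pow, hm, h.pow_c hm]
  group

theorem Braid.d1 (h : Braid a b c) : a * b * c * a = b * (a * b * c) := by
  calc a * b * c * a = a * b * (c * a) := by group
    _ = (a * b * a) * c := by rw [← h.ac]; group
    _ = _ := by rw [h.ab]; group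

theorem Braid.d2 (h : Braid a b c) : a * b * c * b = c * (a * b * c) := by
  calc a * b * c * b = a * (b * c * b) := by group
    _ = (a * c) * b * c := by rw [h.bc]; group
    _ = _ := by rw [h.ac]; group

theorem Braid.d3 (h : Braid a b c) : (a * b * c) ^ 2 * c = a * (a * b * c) ^ 2 := by
  calc (a * b * c) ^ 2 * c = a * b * (c * a) * b * c * c := by rw [sq]; group
    _ = (a * b * a) * (c * b * c) * c := by rw [← h.ac]; group
    _ = a * (a * b * c) ^ 2 := by
      rw [← h.bc, sq]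
      calc a * b * a * (b * c * b) * c = a * (b * a * b) * (c * b * c) := by group
        _ = a * a * b * (a * c) * b * c := by rw [← h.ab]; group
        _ = _ := by rw [h.ac]; group

theorem Braid.z_a (h : Braid a b c) : Commute ((a * b * c) ^ 4) a := by
  show (a * b * c) ^ 4 * a = a * (a * b * c) ^ 4
  calc (a * b * c) ^ 4 * a = (a * b * c) ^ 2 * (a * b * c) * (a * b * c * a) := by
        generalize a * b * c = d
        group
    _ = (a * b * c) ^ 2 * (a * b * c * b) * (a * b * c) := by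
        rw [h.d1]
        generalize a * b * c = d
        group
    _ = ((a * b * c) ^ 2 * c) * (a * b * c) ^ 2 := by
        rw [h.d2]
        generalize a * b * c = d
        simp only [sq, mul_assoc]
    _ = _ := by
        rw [h.d3]
        generalize a * b * c = d
        group

theorem Braid.z_b (h : Braid a b c) : Commute ((a * b * c) ^ 4) b := by
  have e : b = (a * b * c) * a * (a * b * c)⁻¹ := by rw [h.d1]; group
  have h1 := Commute.self_pow (a * b * c) 4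
  have := (h1.symm.mul_right h.z_a).mul_right h1.symm.inv_right
  rwa [← e] at this

theorem Braid.z_c (h : Braid a b c) : Commute ((a * b * c) ^ 4) c := by
  have e : c = (a * b * c) * b * (a * b * c)⁻¹ := by rw [h.d2]; group
  have h1 := Commute.self_pow (a * b * c) 4
  have := (h1.symm.mul_right h.z_b).mul_right h1.symm.inv_right
  rwa [← e] at this

/-- the embedding of the free group of rank two -/
def emb (a b c : H) : F2 →* H := FreeGroup.lift ![a * c⁻¹, b * (a * c⁻¹) * b⁻¹]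

theorem emb_zero : emb a b c (of 0) = a * c⁻¹ := by simp [emb]

theorem emb_one : emb a b c (of 1) = b * (a * c⁻¹) * b⁻¹ := by simp [emb]

theorem conj_of_gen {A B : H} (ι : F2 →* H) (h0 : ι (of 0) = A) (h1 : ι (of 1) = B)
    (aA : a * A * a⁻¹ = A) (aB : a * B * a⁻¹ = B * A⁻¹) (bA : b * A * b⁻¹ = B)
    (bB : b * B * b⁻¹ = B * A⁻¹ * B) {u v : F2} (h : Gen u v) : ∃ g : H, ι u = g * A * g⁻¹ := by
  have cA : A⁻¹ * a * A * (A⁻¹ * a)⁻¹ = A := by
    calc _ = A⁻¹ * (a * A * a⁻¹) * A := by group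
      _ = _ := by rw [aA]; group
  have cB : A⁻¹ * a * B * (A⁻¹ * a)⁻¹ = A⁻¹ * B := by
    calc _ = A⁻¹ * (a * B * a⁻¹) * A := by group
      _ = _ := by rw [aB]; group
  have iA : a⁻¹ * A * a⁻¹⁻¹ = A := by
    nth_rewrite 1 [← aA]
    group
  have iB : a⁻¹ * B * a⁻¹⁻¹ = B * A := by
    calc _ = a⁻¹ * (B * A⁻¹) * a * (a⁻¹ * A * a⁻¹⁻¹) := by group
      _ = _ := by rw [iA, ← aB]; group
  obtain ⟨r, rA, rB⟩ : ∃ r : H, r * A * r⁻¹ = B ∧ r * B * r⁻¹ = A⁻¹ := by
    refine ⟨b * a * (A⁻¹ * a), ?_, ?_⟩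
    · calc _ = b * (a * (A⁻¹ * a * A * (A⁻¹ * a)⁻¹) * a⁻¹) * b⁻¹ := by group
        _ = _ := by rw [cA, aA, bA]
    · calc _ = b * (a * (A⁻¹ * a * B * (A⁻¹ * a)⁻¹) * a⁻¹) * b⁻¹ := by group
        _ = b * ((a * A * a⁻¹)⁻¹ * (a * B * a⁻¹)) * b⁻¹ := by rw [cB]; group
        _ = (b * A * b⁻¹)⁻¹ * (b * B * b⁻¹) * (b * A * b⁻¹)⁻¹ := by rw [aA, aB]; group
        _ = _ := by rw [bA, bB]; group
  have sA : r⁻¹ * A * r⁻¹⁻¹ = B⁻¹ := by
    calc _ = (r⁻¹ * A⁻¹ * r)⁻¹ := by group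
      _ = _ := by rw [← rB]; group
  have sB : r⁻¹ * B * r⁻¹⁻¹ = A := by
    rw [← rA]
    group
  have tA : r * r * A * (r * r)⁻¹ = A⁻¹ := by
    calc _ = r * (r * A * r⁻¹) * r⁻¹ := by group
      _ = _ := by rw [rA, rB]
  have tB : r * r * B * (r * r)⁻¹ = B⁻¹ := by
    calc _ = r * (r * B * r⁻¹) * r⁻¹ := by group
      _ = (r * A * r⁻¹)⁻¹ := by rw [rB]; group
      _ = _ := by rw [rA]
  have key : ∀ g t X Y : H, t * X * t⁻¹ = Y → g * Y * g⁻¹ = g * t * X * (g * t)⁻¹ := by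
    rintro g t X Y rfl
    group
  have keyi : ∀ g t X Y : H, t * X * t⁻¹ = Y → g * Y⁻¹ * g⁻¹ = g * t * X⁻¹ * (g * t)⁻¹ := by
    rintro g t X Y rfl
    group
  have M : Moves fun u v => ∃ g : H, ι u = g * A * g⁻¹ ∧
      (ι v = g * B * g⁻¹ ∨ ι v = g * B⁻¹ * g⁻¹) := by
    refine ⟨?_, ?_, ?_, ?_⟩
    · rintro u v ⟨g, e, f | f⟩
      · refine ⟨g * r, f.trans (key _ _ _ _ rA), Or.inr ?_⟩
        rw [e, ← keyi g r B _ rB, inv_inv]
      · exact ⟨g * r⁻¹, f.trans (key _ _ _ _ sA), Or.inl (e.trans (key _ _ _ _ sB))⟩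
    · rintro u v ⟨g, e, f⟩
      refine ⟨g * (r * r), ?_, ?_⟩
      · rw [map_inv, e, ← key g _ _ _ tA]
        group
      · rcases f with f | f
        · right
          rw [f, ← keyi g _ _ _ tB, inv_inv]
        · left
          rw [f, ← key g _ _ _ tB]
    · rintro u v ⟨g, e, f | f⟩
      · refine ⟨g * a⁻¹, e.trans (key _ _ _ _ iA), Or.inl ?_⟩
        rw [map_mul, e, f, ← key g _ _ _ iB]
        group
      · refine ⟨g * (A⁻¹ * a), e.trans (key _ _ _ _ cA), Or.inr ?_⟩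
        rw [map_mul, e, f, ← keyi g _ _ _ cB]
        group
    · rintro u v x ⟨g, e, f⟩
      refine ⟨ι x * g, ?_, ?_⟩
      · rw [map_mul, map_mul, map_inv, e]
        group
      · rcases f with f | f
        · left
          rw [map_mul, map_mul, map_inv, f]
          group
        · right
          rw [map_mul, map_mul, map_inv, f]
          group
  obtain ⟨g, e, -⟩ := nielsen M ⟨1, by simp [h0], Or.inl (by simp [h1])⟩ u v h
  exact ⟨g, e⟩

theorem gen_basis (β : FreeGroupBasis (Fin 2) F2) : Gen (β 0) (β 1) := by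
  intro K h0 h1
  have : K.map β.repr.toMonoidHom = ⊤ := by
    rw [eq_top_iff, ← FreeGroup.closure_range_of, Subgroup.closure_le]
    rintro _ ⟨i, rfl⟩
    refine ⟨β i, ?_, β.repr_apply_coe i⟩
    fin_cases i
    · exact h0
    · exact h1
  rw [eq_top_iff]
  intro x _
  obtain ⟨y, hy, e⟩ : β.repr x ∈ K.map β.repr.toMonoidHom := by rw [this]; trivial
  rwa [← β.repr.injective e]

theorem Braid.prim_pow (h : Braid a b c) {m : ℕ} (hm : a ^ m = 1)
    (β : FreeGroupBasis (Fin 2) F2) (i : Fin 2) : emb a b c (β i ^ m) = 1 := by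
  have : ∃ v, Gen (β i) v := by
    fin_cases i
    · exact ⟨_, gen_basis β⟩
    · exact ⟨_, gen_swap (gen_basis β)⟩
  obtain ⟨v, hv⟩ := this
  obtain ⟨g, e⟩ := conj_of_gen (emb a b c) emb_zero emb_one h.aA h.aB rfl h.bB hv
  rw [map_pow, e, conj_pow, h.pow_A hm]
  group

end

end Pool.Agent.BP.G
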