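import Pool.Agent.Lib.MP_0c623d_al.G.Braid
import Pool.Agent.Lib.MP_0c623d_al.BP.Malcev

/-!
The free group of rank two modulo `m`-th powers of primitive elements embeds in the quotient of
the braid group on four strands by its centre and the `m`-th powers of the standard generators.
-/

set_option autoImplicit false

namespace Pool.Agent.BP.G

open FreeGroup (of)

/-- the free group of rank three -/
abbrev F3 : Type := FreeGroup (Fin 3)

/-- braid relators, the `m`-th power of the first generator, and the generator of the centre -/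
def rels (m : ℕ) : Set F3 :=
  {of 0 * of 1 * of 0 * (of 1 * of 0 * of 1)⁻¹, of 1 * of 2 * of 1 * (of 2 * of 1 * of 2)⁻¹,
    of 0 * of 2 * (of 2 * of 0)⁻¹, of 0 ^ m, (of 0 * of 1 * of 2) ^ 4}

/-- the braid group on four strands modulo its centre and the `m`-th powers of the generators -/
abbrev Gm (m : ℕ) : Type := PresentedGroup (rels m)

/-- the standard generators -/
def gen (m : ℕ) (i : Fin 3) : Gm m := PresentedGroup.of i

theorem rel_one {m : ℕ} {r : F3} (h : r ∈ rels m) : PresentedGroup.mk (rels m) r = 1 :=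
  PresentedGroup.one_of_mem h

theorem gen_braid (m : ℕ) : Braid (gen m 0) (gen m 1) (gen m 2) := by
  refine ⟨?_, ?_, ?_⟩
  · have := rel_one (m := m) (Or.inl rfl)
    rw [map_mul, map_inv, mul_inv_eq_one] at this
    exact this
  · have := rel_one (m := m) (Or.inr (Or.inl rfl))
    rw [map_mul, map_inv, mul_inv_eq_one] at this
    exact this
  · have := rel_one (m := m) (Or.inr (Or.inr (Or.inl rfl)))
    rw [map_mul, map_inv, mul_inv_eq_one] at this
    exact this

theorem gen_pow (m : ℕ) : gen m 0 ^ m = 1 :=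
  rel_one (m := m) (Or.inr (Or.inr (Or.inr (Or.inl rfl))))

theorem gen_z (m : ℕ) : (gen m 0 * gen m 1 * gen m 2) ^ 4 = 1 :=
  rel_one (m := m) (Or.inr (Or.inr (Or.inr (Or.inr rfl))))

theorem gen_closure (m : ℕ) : Subgroup.closure (Set.range (gen m)) = ⊤ :=
  PresentedGroup.closure_range_of _

instance (m : ℕ) : Group.FG (Gm m) :=
  Group.fg_iff.2 ⟨_, gen_closure m, Set.finite_range _⟩

/-- the universal property -/
def liftG {m : ℕ} {H : Type} [Group H] {a b c : H} (h : Braid a b c) (hm : a ^ m = 1)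
    (hz : (a * b * c) ^ 4 = 1) : Gm m →* H :=
  PresentedGroup.toGroup (f := ![a, b, c]) (by
    rintro r (rfl | rfl | rfl | rfl | rfl)
    · simp [h.ab]
    · simp [h.bc]
    · simp [h.ac]
    · simp [hm]
    · simp [hz])

theorem liftG_gen {m : ℕ} {H : Type} [Group H] {a b c : H} (h : Braid a b c) (hm : a ^ m = 1)
    (hz : (a * b * c) ^ 4 = 1) (i : Fin 3) : liftG h hm hz (gen m i) = ![a, b, c] i :=
  PresentedGroup.toGroup.of _

theorem zpow_of_mem {m : ℕ} {H : Type} [Group H] {a b c : H} (h : Braid a b c) (hm : a ^ m = 1)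
    {g : F3} (hg : g ∈ Subgroup.normalClosure (rels m)) :
    ∃ k : ℤ, ((a * b * c) ^ 4) ^ k = FreeGroup.lift ![a, b, c] g := by
  have hc : ∀ x : F3, Commute ((a * b * c) ^ 4) (FreeGroup.lift ![a, b, c] x) := by
    intro x
    induction x using FreeGroup.induction_on with
    | C1 => simp
    | of i =>
      fin_cases i
      · simpa using h.z_a
      · simpa using h.z_b
      · simpa using h.z_c
    | inv_of i ih => rw [map_inv]; exact ih.inv_right
    | mul x y hx hy => rw [map_mul]; exact hx.mul_right hy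
  have : ((Subgroup.zpowers ((a * b * c) ^ 4)).comap (FreeGroup.lift ![a, b, c])).Normal := by
    refine ⟨fun n hn x => ?_⟩
    obtain ⟨k, hk⟩ := hn
    refine ⟨k, ?_⟩
    simp only at hk ⊢
    rw [map_mul, map_mul, map_inv, ← hk, ← ((hc x).zpow_left k).eq, mul_inv_cancel_right]
  refine Subgroup.normalClosure_le_normal
    (N := (Subgroup.zpowers ((a * b * c) ^ 4)).comap (FreeGroup.lift ![a, b, c])) ?_ hg
  rintro r (rfl | rfl | rfl | rfl | rfl)
  · exact ⟨0, by simp [h.ab]⟩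
  · exact ⟨0, by simp [h.bc]⟩
  · exact ⟨0, by simp [h.ac]⟩
  · exact ⟨0, by simp [hm]⟩
  · exact ⟨1, by simp⟩

/-- a rotation of order six of the Heisenberg group -/
def rot1 : Equiv.Perm (ℤ × ℤ × ℤ) where
  toFun p := (p.1, p.2.1 - p.2.2, p.2.1)
  invFun p := (p.1, p.2.2, p.2.2 - p.2.1)
  left_inv p := by simp
  right_inv p := by simp

/-- a second rotation of order six -/
def rot2 : Equiv.Perm (ℤ × ℤ × ℤ) where
  toFun p := (p.1 + p.2.2, p.2.1 - p.2.2, p.2.1 - 1)
  invFun p := (p.1 - (p.2.2 + 1 - p.2.1), p.2.2 + 1, p.2.2 + 1 - p.2.1)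
  left_inv p := by simp
  right_inv p := by simp

theorem rot_braid : rot1 * rot2 * rot1 = rot2 * rot1 * rot2 := by
  ext p <;> simp [rot1, rot2]
  ring

theorem rot_six : rot1 ^ 6 = 1 := by
  ext p <;> simp [rot1, pow_succ]

theorem rot_z (p : ℤ × ℤ × ℤ) : ((rot1 * rot2 * rot1) ^ 4) p = (p.1 + 2, p.2) := by
  ext <;> simp [rot1, rot2, pow_succ] <;> ring

theorem rot_zpow {k : ℤ} (h : ((rot1 * rot2 * rot1) ^ 4) ^ k = 1) : k = 0 := by
  by_contra hk
  obtain ⟨n, hn, e⟩ := isOfFinOrder_iff_pow_eq_one.1 (isOfFinOrder_iff_zpow_eq_one.2 ⟨k, hk, h⟩)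
  have : ∀ j : ℕ, ((((rot1 * rot2 * rot1) ^ 4) ^ j) 0).1 = 2 * j := by
    intro j
    induction j with
    | zero => simp
    | succ j ih =>
      rw [pow_succ', Equiv.Perm.mul_apply, rot_z, ih]
      push_cast
      ring
  have h2 := this n
  rw [e] at h2
  simp only [Equiv.Perm.one_apply, Prod.fst_zero] at h2
  omega

/-- the subgroup generated by the `m`-th powers of primitive elements -/
abbrev Pm (m : ℕ) : Subgroup F2 :=
  Subgroup.normalClosure {x : F2 | ∃ b : FreeGroupBasis (Fin 2) F2, ∃ i : Fin 2, x = (b i) ^ m}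

theorem Pm_map (m : ℕ) (e : F2 ≃* F2) : (Pm m).map (e : F2 →* F2) = Pm m := by
  rw [Subgroup.map_normalClosure _ _ e.surjective]
  congr 1
  ext x
  constructor
  · rintro ⟨_, ⟨b, i, rfl⟩, rfl⟩
    exact ⟨b.map e, i, by simp⟩
  · rintro ⟨b, i, rfl⟩
    exact ⟨_, ⟨b.map e.symm, i, rfl⟩, by simp⟩

/-- first automorphism -/
def aut1 : F2 ≃* F2 :=
  MonoidHom.toMulEquiv (FreeGroup.lift ![of 0, of 1 * (of 0)⁻¹])
    (FreeGroup.lift ![of 0, of 1 * of 0])
    (FreeGroup.ext_hom _ _ fun i => by fin_cases i <;> simp)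
    (FreeGroup.ext_hom _ _ fun i => by fin_cases i <;> simp)

/-- second automorphism -/
def aut2 : F2 ≃* F2 :=
  MonoidHom.toMulEquiv (FreeGroup.lift ![of 1, of 1 * (of 0)⁻¹ * of 1])
    (FreeGroup.lift ![of 0 * (of 1)⁻¹ * of 0, of 0])
    (FreeGroup.ext_hom _ _ fun i => by fin_cases i <;> simp [mul_assoc])
    (FreeGroup.ext_hom _ _ fun i => by fin_cases i <;> simp [mul_assoc])

theorem hol {Q : Type} [Group Q] (π : F2 →* Q) (hπ : Function.Surjective π) (φ ψ : MulAut Q)
    {m : ℕ} (hm : π (of 0) ^ m = 1)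
    (φ0 : φ (π (of 0)) = π (of 0)) (φ1 : φ (π (of 1)) = π (of 1) * (π (of 0))⁻¹)
    (ψ0 : ψ (π (of 0)) = π (of 1)) (ψ1 : ψ (π (of 1)) = π (of 1) * (π (of 0))⁻¹ * π (of 1)) :
    ∃ a b c : Equiv.Perm Q, Braid a b c ∧ a ^ m = 1 ∧ ∀ f, emb a b c f 1 = π f := by
  have ext : ∀ α β : MulAut Q, α (π (of 0)) = β (π (of 0)) → α (π (of 1)) = β (π (of 1)) →
      α = β := by
    intro α β h0 h1
    have : α.toMonoidHom.comp π = β.toMonoidHom.comp π :=
      FreeGroup.ext_hom _ _ fun i => by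
        fin_cases i
        · exact h0
        · exact h1
    ext x
    obtain ⟨f, rfl⟩ := hπ x
    exact DFunLike.congr_fun this f
  have hb : φ * ψ * φ = ψ * φ * ψ := by
    apply ext
    · simp [φ0, φ1, ψ0, ψ1]
    · simp [φ0, φ1, ψ0, ψ1, mul_assoc]
  have hb' : ∀ x, φ (ψ (φ x)) = ψ (φ (ψ x)) := fun x => DFunLike.congr_fun hb x
  have hp : ∀ n : ℕ, (φ ^ n) (π (of 0)) = π (of 0) ∧
      (φ ^ n) (π (of 1)) = π (of 1) * (π (of 0) ^ n)⁻¹ := by
    intro n
    induction n with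
    | zero => simp
    | succ n ih =>
      rw [pow_succ', MulAut.mul_apply, MulAut.mul_apply, ih.1, ih.2, map_mul, map_inv, map_pow,
        φ0, φ1, pow_succ]
      exact ⟨rfl, by group⟩
  have hφ : φ ^ m = 1 := ext _ _ (hp m).1 (by rw [(hp m).2, hm]; simp)
  refine ⟨MulAut.toPerm Q φ, MulAut.toPerm Q ψ,
    Equiv.mulLeft (π (of 0))⁻¹ * MulAut.toPerm Q φ, ⟨?_, ?_, ?_⟩, ?_, ?_⟩
  · rw [← map_mul, ← map_mul, hb, map_mul, map_mul]
  · ext x
    simp [MulAut.toPerm, φ1, ψ0, hb', mul_assoc]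
  · ext x
    simp [MulAut.toPerm, φ0]
  · rw [← map_pow, hφ, map_one]
  · have : emb (MulAut.toPerm Q φ) (MulAut.toPerm Q ψ)
        (Equiv.mulLeft (π (of 0))⁻¹ * MulAut.toPerm Q φ) =
        (MulAction.toPermHom Q Q).comp π := by
      refine FreeGroup.ext_hom _ _ fun i => ?_
      fin_cases i
      · ext x
        simp [emb]
      · ext x
        simp [emb, MulAut.toPerm, ψ0, Equiv.Perm.inv_def]
    intro f
    rw [this]
    simp

theorem map_emb {H K : Type} [Group H] [Group K] (φ : H →* K) (a b c : H) (f : F2) :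
    φ (emb a b c f) = emb (φ a) (φ b) (φ c) f := by
  have : φ.comp (emb a b c) = emb (φ a) (φ b) (φ c) :=
    FreeGroup.ext_hom _ _ fun i => by fin_cases i <;> simp [emb]
  exact DFunLike.congr_fun this f

theorem mem_Pm {m : ℕ} (h6 : 6 ∣ m) {f : F2}
    (hf : emb (gen m 0) (gen m 1) (gen m 2) f = 1) : f ∈ Pm m := by
  have h1 : emb (of 0) (of 1) (of 2) f ∈ Subgroup.normalClosure (rels m) := by
    rw [← PresentedGroup.mk_eq_one_iff, map_emb]
    exact hf
  have h0 : (of 0 : F2) ^ m ∈ Pm m :=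
    Subgroup.subset_normalClosure ⟨FreeGroupBasis.ofFreeGroup _, 0, rfl⟩
  obtain ⟨a, b, c, hb, hm, he⟩ := hol (QuotientGroup.mk' (Pm m)) (QuotientGroup.mk'_surjective _)
    (QuotientGroup.congr _ _ aut1 (Pm_map m aut1)) (QuotientGroup.congr _ _ aut2 (Pm_map m aut2))
    (m := m) (by rw [← map_pow]; exact (QuotientGroup.eq_one_iff _).2 h0)
    (by simp [aut1]) (by simp [aut1]) (by simp [aut2]) (by simp [aut2])
  have hB : Braid (a, rot1) (b, rot2) (c, rot1) :=
    ⟨Prod.ext hb.ab rot_braid, Prod.ext hb.bc rot_braid.symm, Prod.ext hb.ac rfl⟩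
  have hM : (a, rot1) ^ m = 1 := by
    obtain ⟨j, rfl⟩ := h6
    exact Prod.ext hm (by simp [pow_mul, rot_six])
  obtain ⟨k, hk⟩ := zpow_of_mem hB hM h1
  rw [map_emb] at hk
  have e2 := congrArg (MonoidHom.snd _ _) hk
  have e1 := congrArg (MonoidHom.fst _ _) hk
  rw [map_emb, map_zpow, map_pow] at e1 e2
  have triv : ∀ x y : Equiv.Perm (ℤ × ℤ × ℤ), emb x y x f = 1 := by
    intro x y
    have : emb x y x = 1 := FreeGroup.ext_hom _ _ fun i => by fin_cases i <;> simp [emb]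
    rw [this]
    rfl
  have k0 : k = 0 := rot_zpow (e2.trans (by simpa using triv rot1 rot2))
  rw [k0, zpow_zero] at e1
  have e3 : emb a b c f = 1 := by simpa using e1.symm
  have e4 := he f
  rw [e3] at e4
  exact (QuotientGroup.eq_one_iff _).1 e4.symm

/-- the embedding -/
def embQ (m : ℕ) : F2 ⧸ Pm m →* Gm m :=
  QuotientGroup.lift _ (emb (gen m 0) (gen m 1) (gen m 2))
    (Subgroup.normalClosure_le_normal (N := (emb (gen m 0) (gen m 1) (gen m 2)).ker) (by
      rintro _ ⟨β, i, rfl⟩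
      exact (gen_braid m).prim_pow (gen_pow m) β i))

theorem embQ_injective {m : ℕ} (h6 : 6 ∣ m) : Function.Injective (embQ m) := by
  rw [injective_iff_map_eq_one]
  intro g hg
  obtain ⟨f, rfl⟩ := QuotientGroup.mk_surjective g
  exact (QuotientGroup.eq_one_iff _).2 (mem_Pm h6 hg)

/-- residual finiteness -/
def RF (G : Type) [Group G] : Prop := ∀ g : G, g ≠ 1 → ∃ H : Subgroup G, H.index ≠ 0 ∧ g ∉ H

theorem RF.of_injective {G K : Type} [Group G] [Group K] (h : RF K) (φ : G →* K)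
    (hφ : Function.Injective φ) : RF G := by
  intro g hg
  obtain ⟨H, h1, h2⟩ := h (φ g) fun e => hg (hφ (by rw [e, map_one]))
  have : H.FiniteIndex := ⟨h1⟩
  refine ⟨H.comap φ, ?_, h2⟩
  rw [Subgroup.index_comap]
  exact Subgroup.FiniteIndex.index_ne_zero

/-- a faithful projective representation gives residual finiteness -/
theorem rf_of_proj {m : ℕ} {n : Type} [Fintype n] [DecidableEq n] (ρ : Gm m → Matrix n n ℂ)
    (hu : ∀ x, IsUnit (ρ x)) (hρ : ∀ x y, ∃ c : ℂ, ρ (x * y) = c • (ρ x * ρ y))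
    (hf : ∀ (g : Gm m) (c : ℂ), ρ g = c • (1 : Matrix n n ℂ) → g = 1) : RF (Gm m) :=
  fun g hg => Pool.Agent.Lib.MP_0c623d_al.BP.malcev_proj ρ hu hρ fun c e => hg (hf g c e)

/-- the same for a representation of the free group whose projective kernel is the normal closure
of the relators -/
theorem rf_of_free {m : ℕ} {n : Type} [Fintype n] [DecidableEq n] (ρ : F3 →* Matrix n n ℂ)
    (h : ∀ g, g ∈ Subgroup.normalClosure (rels m) ↔ ∃ c : ℂ, ρ g = c • (1 : Matrix n n ℂ)) :
    RF (Gm m) := by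
  choose s hs using PresentedGroup.mk_surjective (rels m)
  refine rf_of_proj (fun x => ρ (s x)) (fun x => (Group.isUnit _).map ρ) (fun x y => ?_)
    fun g c e => ?_
  · obtain ⟨c, hc⟩ := (h (s (x * y) * (s x * s y)⁻¹)).1 (by
      rw [← PresentedGroup.mk_eq_one_iff, map_mul, map_inv, map_mul, hs, hs, hs, mul_inv_cancel])
    refine ⟨c, ?_⟩
    rw [← map_mul, ← inv_mul_cancel_right (s (x * y)) (s x * s y), map_mul, hc, smul_mul_assoc,
      one_mul]
  · rw [← hs g, PresentedGroup.mk_eq_one_iff]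
    exact (h _).2 ⟨c, e⟩

/-- The final reduction. -/
theorem final (h : ∀ M : ℕ, ∃ m, M ≤ m ∧ 6 ∣ m ∧ RF (Gm m)) :
    ¬ (∀ n : ℕ, 2 ≤ n → ∃ M : ℕ, ∀ m : ℕ, M ≤ m →
      ∃ g : FreeGroup (Fin n) ⧸ Subgroup.normalClosure
          {x : FreeGroup (Fin n) | ∃ b : FreeGroupBasis (Fin n) (FreeGroup (Fin n)),
            ∃ i : Fin n, x = (b i) ^ m},
        g ≠ 1 ∧
        ∀ H : Subgroup (FreeGroup (Fin n) ⧸ Subgroup.normalClosure
          {x : FreeGroup (Fin n) | ∃ b : FreeGroupBasis (Fin n) (FreeGroup (Fin n)),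
            ∃ i : Fin n, x = (b i) ^ m}),
          H.index ≠ 0 → g ∈ H) := by
  intro hh
  obtain ⟨M, hM⟩ := hh 2 le_rfl
  obtain ⟨m, h1, h6, hr⟩ := h M
  obtain ⟨g, hg, hH⟩ := hM m h1
  obtain ⟨H, a, b⟩ := hr.of_injective (embQ m) (embQ_injective h6) g hg
  exact b (hH H a)

end Pool.Agent.BP.G
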