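import Mathlib

/-!
The length of the common initial segment of two reduced words.
-/

set_option autoImplicit false

namespace Pool.Agent.BP.G

open FreeGroup

variable {α : Type} [DecidableEq α]

/-- length of the longest common initial segment of two lists -/
def cl {β : Type} [DecidableEq β] : List β → List β → ℕ
  | x :: s, y :: t => if x = y then cl s t + 1 else 0
  | _, _ => 0

theorem cl_nil_left {β : Type} [DecidableEq β] (t : List β) : cl [] t = 0 := by
  cases t <;> rfl

theorem cl_nil_right {β : Type} [DecidableEq β] (s : List β) : cl s [] = 0 := by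
  cases s <;> rfl

theorem cl_min {β : Type} [DecidableEq β] :
    ∀ r s t : List β, min (cl r s) (cl s t) ≤ cl r t
  | [], s, t => by simp [cl_nil_left]
  | _ :: _, [], t => by simp [cl_nil_left]
  | _ :: _, _ :: _, [] => by simp [cl_nil_right]
  | x :: r, y :: s, z :: t => by
    have := cl_min r s t
    simp only [cl]
    split_ifs with h1 h2 h3 <;> simp_all

theorem cl_take {β : Type} [DecidableEq β] :
    ∀ (s : List β) (k : ℕ), k ≤ s.length → cl (s.take k) s = k
  | _, 0, _ => by simp [cl_nil_left]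
  | [], k + 1, h => by simp at h
  | x :: s, k + 1, h => by
    have := cl_take s k (by simpa using h)
    simp [cl, this]

theorem isReduced_invRev {s : List (α × Bool)} (h : IsReduced s) : IsReduced (invRev s) := by
  rw [isReduced_iff_reduce_eq] at h ⊢
  rw [reduce_invRev, h]

theorem len_list : ∀ s t : List (α × Bool), IsReduced s → IsReduced t →
    s.length + t.length = FreeGroup.norm ((mk s)⁻¹ * mk t) + 2 * cl s t
  | [], t, _, ht => by
    rw [cl_nil_left, ← one_eq_mk, inv_one, one_mul, FreeGroup.norm, toWord_mk, ht.reduce_eq]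
    simp
  | x :: s, [], hs, _ => by
    rw [cl_nil_right, ← one_eq_mk, mul_one, norm_inv_eq, FreeGroup.norm, toWord_mk, hs.reduce_eq]
    simp
  | x :: s, y :: t, hs, ht => by
    by_cases h : x = y
    · subst h
      have := len_list s t (List.IsChain.tail hs) (List.IsChain.tail ht)
      have e : (mk (x :: s))⁻¹ * mk (x :: t) = (mk s)⁻¹ * mk t := by
        rw [show x :: s = [x] ++ s from rfl, show x :: t = [x] ++ t from rfl, ← mul_mk, ← mul_mk]
        group
      rw [e]
      simp only [cl, if_true, List.length_cons]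
      omega
    · have hr : IsReduced (invRev (x :: s) ++ y :: t) := by
        have h1 := isReduced_invRev hs
        rw [invRev_cons] at h1 ⊢
        have h2 : IsReduced (invRev [x] ++ y :: t) := by
          show IsReduced ((x.1, !x.2) :: y :: t)
          rw [isReduced_cons_cons]
          refine ⟨fun e => ?_, ht⟩
          obtain ⟨x1, x2⟩ := x
          obtain ⟨y1, y2⟩ := y
          simp only at e
          subst e
          cases x2 <;> cases y2 <;> simp_all
        exact IsReduced.append_overlap h1 h2 (by simp [invRev])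
      rw [inv_mk, mul_mk, FreeGroup.norm, toWord_mk, hr.reduce_eq]
      simp [cl, h]

/-- length of the common initial segment of two elements of a free group -/
def cp (g h : FreeGroup α) : ℕ := cl g.toWord h.toWord

theorem cp_eq (g h : FreeGroup α) : FreeGroup.norm g + FreeGroup.norm h = FreeGroup.norm (g⁻¹ * h) + 2 * cp g h := by
  have := len_list g.toWord h.toWord isReduced_toWord isReduced_toWord
  rwa [mk_toWord, mk_toWord] at this

theorem cp_min (g h k : FreeGroup α) : min (cp g h) (cp h k) ≤ cp g k := cl_min _ _ _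

theorem cp_comm (g h : FreeGroup α) : cp g h = cp h g := by
  have h1 := cp_eq g h
  have h2 := cp_eq h g
  have h3 : FreeGroup.norm (g⁻¹ * h) = FreeGroup.norm (h⁻¹ * g) := by
    rw [← norm_inv_eq]
    simp
  omega

theorem cp_le (g h : FreeGroup α) : cp g h ≤ FreeGroup.norm g := by
  have h1 := cp_eq g h
  have h2 := norm_mul_le g (g⁻¹ * h)
  rw [mul_inv_cancel_left] at h2
  omega

theorem exists_init (g : FreeGroup α) {k : ℕ} (hk : k ≤ FreeGroup.norm g) :
    ∃ p : FreeGroup α, FreeGroup.norm p = k ∧ cp p g = k := by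
  have hr : IsReduced (g.toWord.take k) :=
    List.IsChain.take isReduced_toWord k
  refine ⟨mk (g.toWord.take k), ?_, ?_⟩
  · rw [FreeGroup.norm, toWord_mk, hr.reduce_eq, List.length_take]
    exact min_eq_left hk
  · rw [cp, toWord_mk, hr.reduce_eq]
    exact cl_take _ _ hk

theorem cp_inv_lt {y : FreeGroup α} (hy : y ≠ 1) : 2 * cp y⁻¹ y < FreeGroup.norm y := by
  by_contra hc
  push Not at hc
  obtain ⟨p, hp1, hp2⟩ := exists_init y (k := FreeGroup.norm y - FreeGroup.norm y / 2) (by omega)
  have a1 := cp_eq p y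
  have a2 := cp_eq p y⁻¹
  have a3 := cp_min p y y⁻¹
  have a4 := cp_le p y⁻¹
  have a5 := cp_comm y y⁻¹
  have a6 : FreeGroup.norm y⁻¹ = FreeGroup.norm y := norm_inv_eq
  have b1 := cp_eq (p⁻¹ * y)⁻¹ y⁻¹
  have b2 := cp_eq (p⁻¹ * y⁻¹)⁻¹ y
  have b3 := cp_eq (p⁻¹ * y)⁻¹ (p⁻¹ * y⁻¹)⁻¹
  have b4 := cp_min (p⁻¹ * y)⁻¹ y⁻¹ y
  have b5 := cp_min (p⁻¹ * y)⁻¹ y (p⁻¹ * y⁻¹)⁻¹
  have b6 := cp_comm y (p⁻¹ * y⁻¹)⁻¹
  rw [inv_inv, mul_inv_cancel_right] at b1
  rw [inv_inv, inv_mul_cancel_right] at b2
  rw [inv_inv] at b3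
  simp only [norm_inv_eq] at b1 b2 b3
  have e : FreeGroup.norm (p⁻¹ * y * (p⁻¹ * y⁻¹)⁻¹) = 0 := by omega
  rw [FreeGroup.norm_eq_zero, mul_inv_eq_one, mul_right_inj] at e
  apply hy
  have : y ^ 2 = 1 := by
    rw [sq]
    nth_rewrite 1 [e]
    simp
  exact (pow_eq_one_iff_left two_ne_zero).1 this

end Pool.Agent.BP.G
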