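import Pool.Agent.Lib.MP_0c623d_al.G.Len

/-!
Nielsen's theorem for the free group of rank two, as an induction principle over generating pairs.
-/

set_option autoImplicit false

namespace Pool.Agent.BP.G

open FreeGroup

/-- the free group of rank two -/
abbrev F2 : Type := FreeGroup (Fin 2)

/-- the pair generates -/
def Gen (u v : F2) : Prop := ∀ H : Subgroup F2, u ∈ H → v ∈ H → H = ⊤

/-- closure of a property of pairs under Nielsen moves and conjugation -/
structure Moves (Q : F2 → F2 → Prop) : Prop where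
  swap : ∀ u v, Q u v → Q v u
  inv : ∀ u v, Q u v → Q u⁻¹ v
  mul : ∀ u v, Q u v → Q u (v * u)
  conj : ∀ u v g, Q u v → Q (g * u * g⁻¹) (g * v * g⁻¹)

theorem gen_swap {u v : F2} (h : Gen u v) : Gen v u := fun H a b => h H b a

theorem gen_inv {u v : F2} (h : Gen u v) : Gen u⁻¹ v := fun H a b => h H (inv_mem_iff.1 a) b

theorem gen_mul {u v : F2} (h : Gen u v) : Gen u (v * u) := fun H a b =>
  h H a ((H.mul_mem_cancel_right a).1 b)

theorem gen_conj {u v : F2} (g : F2) (h : Gen u v) : Gen (g * u * g⁻¹) (g * v * g⁻¹) := by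
  intro H a b
  have := h (H.comap (MulAut.conj g).toMonoidHom) a b
  rw [eq_top_iff]
  intro x _
  have hx : g⁻¹ * x * g ∈ H.comap (MulAut.conj g).toMonoidHom := by
    rw [this]
    trivial
  simpa [Subgroup.mem_comap, mul_assoc] using hx

theorem gen_moves : Moves Gen :=
  ⟨fun _ _ => gen_swap, fun _ _ => gen_inv, fun _ _ => gen_mul, fun _ _ g => gen_conj g⟩

theorem of_ne_mul : (of 0 : F2) * of 1 ≠ of 1 * of 0 := by decide

theorem gen_ne_one {u v : F2} (h : Gen u v) : u ≠ 1 := by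
  rintro rfl
  have := h (Subgroup.zpowers v) (one_mem _) (Subgroup.mem_zpowers v)
  obtain ⟨i, hi⟩ : (of 0 : F2) ∈ Subgroup.zpowers v := by rw [this]; trivial
  obtain ⟨j, hj⟩ : (of 1 : F2) ∈ Subgroup.zpowers v := by rw [this]; trivial
  apply of_ne_mul
  rw [← hi, ← hj]
  exact (Commute.zpow_zpow_self v i j).eq

section
variable {Q : F2 → F2 → Prop}

theorem Moves.inv2 (M : Moves Q) {u v : F2} (h : Q u v) : Q u v⁻¹ :=
  M.swap _ _ (M.inv _ _ (M.swap _ _ h))

theorem Moves.of_inv (M : Moves Q) {u v : F2} (h : Q u⁻¹ v) : Q u v := by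
  simpa using M.inv _ _ h

theorem Moves.of_inv2 (M : Moves Q) {u v : F2} (h : Q u v⁻¹) : Q u v := by
  simpa using M.inv2 h

theorem Moves.of_mul (M : Moves Q) {u v : F2} (h : Q u (v * u)) : Q u v := by
  have := M.mul _ _ (M.inv _ _ h)
  rw [mul_inv_cancel_right] at this
  exact M.of_inv this

theorem Moves.of_conj (M : Moves Q) {u v : F2} (g : F2) (h : Q (g * u * g⁻¹) (g * v * g⁻¹)) :
    Q u v := by
  simpa [mul_assoc] using M.conj _ _ g⁻¹ h

/-- a shortest generating pair without the property -/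
structure Bad (Q : F2 → F2 → Prop) (y s : F2) : Prop where
  gen : Gen y s
  no : ¬ Q y s
  min : ∀ y' s', Gen y' s' → y'.norm + s'.norm < y.norm + s.norm → Q y' s'

theorem Bad.swap (M : Moves Q) {y s : F2} (h : Bad Q y s) : Bad Q s y :=
  ⟨gen_swap h.gen, fun q => h.no (M.swap _ _ q), fun y' s' a b => h.min y' s' a (by omega)⟩

theorem Bad.inv (M : Moves Q) {y s : F2} (h : Bad Q y s) : Bad Q y⁻¹ s :=
  ⟨gen_inv h.gen, fun q => h.no (M.of_inv q), fun y' s' a b =>
    h.min y' s' a (by rwa [norm_inv_eq] at b)⟩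

theorem Bad.inv2 (M : Moves Q) {y s : F2} (h : Bad Q y s) : Bad Q y s⁻¹ :=
  ((h.swap M).inv M).swap M

theorem Bad.half (M : Moves Q) {y s : F2} (h : Bad Q y s) : 2 * cp s y ≤ y.norm := by
  by_contra hc
  have := cp_eq s y
  exact h.no (M.of_inv2 (M.of_mul (h.min _ _ (gen_mul (gen_moves.inv2 h.gen)) (by omega))))

theorem Bad.two (M : Moves Q) {y s : F2} (h : Bad Q y s) : cp s y + cp s⁻¹ y⁻¹ < y.norm := by
  by_contra hc
  have h1 := h.half M
  have h2 := ((h.inv M).inv2 M).half M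
  have h3 := (h.swap M).half M
  have h4 := cp_comm s y
  have h0 : y.norm ≠ 0 := fun e => gen_ne_one h.gen (FreeGroup.norm_eq_zero.1 e)
  rw [norm_inv_eq] at h2
  obtain ⟨p, hp1, hp2⟩ := exists_init y (k := cp s y) (by omega)
  have a1 := cp_eq p y
  have a2 := norm_mul_le (p⁻¹ * y) p
  have a3 := cp_min s y p
  have a4 := cp_comm y p
  have a5 := cp_eq s p
  have a6 := cp_eq (p⁻¹ * y)⁻¹ y⁻¹
  have a7 := cp_min (p⁻¹ * y)⁻¹ y⁻¹ s⁻¹
  have a8 := cp_comm y⁻¹ s⁻¹
  have a9 := cp_eq s⁻¹ (s⁻¹ * p)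
  have b1 := cp_min (p⁻¹ * y)⁻¹ s⁻¹ (s⁻¹ * p)
  have b2 := cp_eq (p⁻¹ * y)⁻¹ (s⁻¹ * p)
  have b3 := cp_le p s
  have b4 := cp_comm p s
  rw [inv_inv, mul_inv_cancel_right] at a6
  rw [inv_inv, mul_inv_cancel_left] at a9
  rw [inv_inv] at b2
  simp only [norm_inv_eq] at a6 a9 b2
  have g1 : Gen y (y * s⁻¹) := by
    simpa using gen_moves.inv2 (gen_moves.of_inv (gen_mul (gen_inv h.gen)))
  have g2 := gen_conj p⁻¹ g1
  have q := M.of_conj p⁻¹ (h.min _ _ g2 (by
    rw [inv_inv, show p⁻¹ * (y * s⁻¹) * p = p⁻¹ * y * (s⁻¹ * p) by group]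
    omega))
  have q2 : Q y⁻¹ (s * y⁻¹) := by simpa using M.inv _ _ (M.inv2 q)
  exact h.no (M.of_inv (M.of_mul q2))

theorem Bad.red (M : Moves Q) {y s : F2} (h : Bad Q y s) {t r : F2}
    (ht : t = y⁻¹ ∨ t = s ∨ t = s⁻¹) (hr : r = y ∨ r = s ∨ r = s⁻¹) :
    cp t y + cp r y⁻¹ < y.norm := by
  have h0 := cp_inv_lt (gen_ne_one h.gen)
  have h1 := h.half M
  have h2 := (h.inv2 M).half M
  have h3 := (h.inv M).half M
  have h4 := ((h.inv M).inv2 M).half M
  have h5 := h.two M
  have h6 := (h.inv2 M).two M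
  have h7 := cp_min y⁻¹ s y
  have h8 := cp_min y⁻¹ s⁻¹ y
  have c1 := cp_comm y y⁻¹
  have c2 := cp_comm y⁻¹ s
  have c3 := cp_comm y⁻¹ s⁻¹
  rw [inv_inv] at h6
  rw [norm_inv_eq] at h3 h4
  rcases ht with rfl | rfl | rfl <;> rcases hr with rfl | rfl | rfl <;> omega

/-- value of a formal letter -/
def val (u v : F2) (l : Fin 2 × Bool) : F2 := cond l.2 (![u, v] l.1) (![u, v] l.1)⁻¹

theorem val_not (u v : F2) (l : Fin 2 × Bool) : val u v (l.1, !l.2) = (val u v l)⁻¹ := by
  obtain ⟨i, b⟩ := l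
  cases b <;> simp [val]

theorem Bad.red2 (M : Moves Q) {u v : F2} (h : Bad Q u v) (l l1 l2 : Fin 2 × Bool)
    (h1 : l1 ≠ l) (h2 : l2 ≠ (l.1, !l.2)) :
    cp (val u v l1) (val u v l) + cp (val u v l2) (val u v l)⁻¹ < (val u v l).norm := by
  obtain ⟨i, b⟩ := l
  obtain ⟨i1, b1⟩ := l1
  obtain ⟨i2, b2⟩ := l2
  have A := fun t r => h.red M (t := t) (r := r)
  have B := fun t r => (h.inv M).red M (t := t) (r := r)
  have C := fun t r => (h.swap M).red M (t := t) (r := r)
  have D := fun t r => ((h.swap M).inv M).red M (t := t) (r := r)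
  fin_cases i <;> cases b
  · refine B _ _ ?_ ?_
    · fin_cases i1 <;> cases b1 <;> simp_all [val]
    · fin_cases i2 <;> cases b2 <;> simp_all [val]
  · refine A _ _ ?_ ?_
    · fin_cases i1 <;> cases b1 <;> simp_all [val]
    · fin_cases i2 <;> cases b2 <;> simp_all [val]
  · refine D _ _ ?_ ?_
    · fin_cases i1 <;> cases b1 <;> simp_all [val]
    · fin_cases i2 <;> cases b2 <;> simp_all [val]
  · refine C _ _ ?_ ?_
    · fin_cases i1 <;> cases b1 <;> simp_all [val]
    · fin_cases i2 <;> cases b2 <;> simp_all [val]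

theorem Bad.word (M : Moves Q) {u v : F2} (h : Bad Q u v) :
    ∀ (L : List (Fin 2 × Bool)) (l : Fin 2 × Bool), IsReduced (l :: L) → ∀ l1, l1 ≠ l →
      cp (val u v l1) (val u v l) < cp ((l :: L).map (val u v)).prod (val u v l) ∧
      cp (val u v l1) (val u v l) + (L.length + 1) ≤ ((l :: L).map (val u v)).prod.norm
  | [], l, _, l1, h1 => by
    have a := h.red2 M l l1 l h1 (by obtain ⟨i, b⟩ := l; cases b <;> simp)
    have b := cp_eq (val u v l) (val u v l)
    simp only [List.map_cons, List.map_nil, List.prod_cons, List.prod_nil, mul_one,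
      List.length_nil, inv_mul_cancel, FreeGroup.norm_one] at b ⊢
    omega
  | l' :: L, l, hr, l1, h1 => by
    rw [isReduced_cons_cons] at hr
    have hne : (l.1, !l.2) ≠ l' := by
      rintro rfl
      have := hr.1 rfl
      simp at this
    obtain ⟨i1, i2⟩ := Bad.word M h L l' hr.2 _ hne
    have a := h.red2 M l l1 l' h1 hne.symm
    rw [val_not] at i1 i2
    rw [List.map_cons, List.prod_cons]
    generalize ((l' :: L).map (val u v)).prod = g at *
    generalize val u v l = x at *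
    generalize val u v l' = y at *
    have b1 := cp_min x⁻¹ y g
    have b2 := cp_min x⁻¹ g y
    have b3 := cp_comm y g
    have b4 := cp_comm y x⁻¹
    have b5 := cp_eq x⁻¹ g
    have b6 := cp_eq x (x * g)
    have b7 := cp_comm x (x * g)
    rw [inv_inv, norm_inv_eq] at b5
    rw [inv_mul_cancel_left] at b6
    simp only [List.length_cons]
    omega

theorem Bad.letter (M : Moves Q) {u v : F2} (h : Bad Q u v) (i : Fin 2) :
    ∃ l, of i = val u v l := by
  have hs : (FreeGroup.lift ![u, v]).range = ⊤ :=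
    h.gen _ ⟨of 0, by simp⟩ ⟨of 1, by simp⟩
  obtain ⟨w, hw⟩ : of i ∈ (FreeGroup.lift ![u, v]).range := by rw [hs]; trivial
  rw [← mk_toWord (x := w), lift_mk] at hw
  have hr : IsReduced w.toWord := isReduced_toWord
  change (w.toWord.map (val u v)).prod = _ at hw
  generalize w.toWord = L at hw hr
  match L, hw, hr with
  | [], hw, _ => exact absurd hw (one_ne_of i)
  | [l], hw, _ => exact ⟨l, by simpa using hw.symm⟩
  | l :: l' :: L, hw, hr =>
    have := (h.word M (l' :: L) l hr (l.1, !l.2)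
      (by obtain ⟨i, b⟩ := l; cases b <;> simp)).2
    rw [hw, norm_of] at this
    simp only [List.length_cons] at this
    omega

theorem nielsen (M : Moves Q) (h0 : Q (of 0) (of 1)) (u v : F2) (h : Gen u v) : Q u v := by
  induction hn : u.norm + v.norm using Nat.strong_induction_on generalizing u v with
  | _ n ih =>
    by_contra hq
    have B : Bad Q u v := ⟨h, hq, fun y s a b => ih _ (hn ▸ b) y s a rfl⟩
    obtain ⟨⟨i, b⟩, e0⟩ := B.letter M 0
    obtain ⟨⟨j, c⟩, e1⟩ := B.letter M 1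
    have n0 := of_ne_mul
    rw [e0, e1] at h0 n0
    apply hq
    fin_cases i <;> fin_cases j <;> cases b <;> cases c <;> simp [val] at h0 n0
    · exact M.of_inv (M.of_inv2 h0)
    · exact M.of_inv h0
    · exact M.of_inv2 h0
    · exact h0
    · exact M.swap _ _ (M.of_inv (M.of_inv2 h0))
    · exact M.swap _ _ (M.of_inv h0)
    · exact M.swap _ _ (M.of_inv2 h0)
    · exact M.swap _ _ h0

end

end Pool.Agent.BP.G
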